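import Pool.Agent.Helper95.Lin.Basics
import Pool.Agent.Helper95.Lin.GoalsH

/-! # Packet RHO -/

open Complex Metric Set Filter Topology MeasureTheory
open scoped ContDiff ComplexConjugate ComplexOrder

namespace Pool.Agent.Helper80.Lin

open Pool.Agent.Helper95.Lin

theorem rho : S_RHO := by
  intro n M Γ _ T χ hT hχ c hc
  have hc1 : c 1 = 0 := by
    have := hc 1 1
    rw [one_mul] at this
    linarith
  have hcinv : ∀ δ, c δ⁻¹ = - c δ := by
    intro δ
    have := hc δ δ⁻¹
    rw [mul_inv_cancel, hc1] at this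
    linarith
  -- finiteness of the sums
  have hfin : ∀ x ∈ M, {γ | T γ x ∈ tsupport χ}.Finite := by
    intro x hx
    have := hχ.fin {x} (Set.singleton_subset_iff.mpr hx) isCompact_singleton
    apply this.subset
    intro γ hγ
    exact ⟨x, rfl, hγ⟩
  have hsup : ∀ x ∈ M, ∀ q : Γ → ℝ, (Function.support fun γ => χ (T γ x) * q γ).Finite := by
    intro x hx q
    apply (hfin x hx).subset
    intro γ hγ
    rw [Function.mem_support] at hγ
    apply subset_tsupport
    rw [Function.mem_support]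
    intro h
    rw [h, zero_mul] at hγ
    exact hγ rfl
  refine ⟨fun x => ∑ᶠ γ, χ (T γ x) * (- c γ), ?_, ?_⟩
  · intro x₀ hx₀
    apply ContDiffAt.contDiffWithinAt
    obtain ⟨K, hK, hKM, hKc⟩ := local_compact_nhds (hT.isOpen.mem_nhds hx₀)
    have hS := hχ.fin K hKM hKc
    have heq : (fun x => ∑ᶠ γ, χ (T γ x) * (- c γ)) =ᶠ[𝓝 x₀]
        fun x => ∑ γ ∈ hS.toFinset, χ (T γ x) * (- c γ) := by
      filter_upwards [hK] with x hx
      apply finsum_eq_finsetSum_of_support_subset
      intro γ hγ
      rw [Function.mem_support] at hγ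
      rw [Set.Finite.coe_toFinset]
      refine ⟨x, hx, ?_⟩
      apply subset_tsupport
      rw [Function.mem_support]
      intro h
      rw [h, zero_mul] at hγ
      exact hγ rfl
    apply ContDiffAt.congr_of_eventuallyEq _ heq
    apply ContDiffAt.sum
    intro γ _
    apply ContDiffAt.mul _ contDiffAt_const
    have h1 : ContDiffAt ℝ ∞ (T γ) x₀ := (hT.contDiffOn γ).contDiffAt (hT.isOpen.mem_nhds hx₀)
    exact (hχ.test.1.contDiffAt).comp x₀ h1
  · intro δ x hx
    have h1 : (fun γ => χ (T γ (T δ x)) * (- c γ)) =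
        (fun γ' => χ (T γ' x) * (- c γ' + c δ)) ∘ (Equiv.mulRight δ) := by
      funext γ
      simp only [Function.comp, Equiv.coe_mulRight]
      rw [hT.mul γ δ x hx, hc γ δ]
      congr 1
      ring
    have h2 : (∑ᶠ γ, χ (T γ (T δ x)) * (- c γ)) = ∑ᶠ γ', χ (T γ' x) * (- c γ' + c δ) := by
      rw [h1]
      exact finsum_comp_equiv (M := ℝ) (f := fun γ' => χ (T γ' x) * (- c γ' + c δ))
        (Equiv.mulRight δ)
    have h3 : (∑ᶠ γ', χ (T γ' x) * (- c γ' + c δ)) =
        (∑ᶠ γ', χ (T γ' x) * (- c γ')) + ∑ᶠ γ', χ (T γ' x) * c δ := by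
      rw [← finsum_add_distrib (hsup x hx _) (hsup x hx _)]
      apply finsum_congr
      intro γ
      ring
    have h4 : (∑ᶠ γ', χ (T γ' x) * c δ) = c δ := by
      have h5 : (Function.support fun γ => χ (T γ x)).Finite := by
        have := hsup x hx (fun _ => 1)
        simpa using this
      rw [← finsum_mul' _ _ h5, hχ.sum x hx, one_mul]
    dsimp only
    rw [h2, h3, h4]

end Pool.Agent.Helper80.Lin
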